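import Pool.Agent.Lib.MP_b5021c_nt.IfaceK1

/-! MP_b5021c_nt, row LPF: a coefficientwise limit of polydisc-free polynomials is polydisc-free. -/

namespace Pool.Agent.MP_b5021c_nt.Lpf

open Polynomial Filter Topology

theorem eval_mvp {ι : Type} [Fintype ι] [DecidableEq ι] (D : Finset ι → ℤ[X]) (z : ℂ) (w : ι → ℂ) :
    (mvp D w).eval z = mv D z w := by
  simp only [mvp, mv, pv, eval_finsetSum, eval_mul, eval_C, eval_map, aeval_def,
    algebraMap_int_eq]
  exact Finset.sum_congr rfl fun S _ => mul_comm _ _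

theorem eval_ne {Q : ℤ[X]} {θ : ℝ} (h : OneZero Q θ) {z : ℂ} (hz : ‖z‖ = 1) :
    (Q.map (Int.castRingHom ℂ)).eval z ≠ 0 := by
  obtain ⟨h1, _, g, hg, hg0⟩ := h
  rw [hg, eval_mul]
  refine mul_ne_zero ?_ (hg0 z hz.le)
  simp only [eval_sub, eval_one, eval_mul, eval_C, eval_X]
  intro h0
  have h2 : (θ : ℂ) * z = 1 := (sub_eq_zero.1 h0).symm
  have h3 := congrArg norm h2
  rw [norm_mul, hz, mul_one, norm_one, Complex.norm_real, Real.norm_eq_abs,
    abs_of_pos (by linarith)] at h3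
  linarith

/-- the power series `sum_S w^S a_S`. -/
noncomputable def fps {ι : Type} [Fintype ι] [DecidableEq ι] (a : Finset ι → ℕ → ℤ) (w : ι → ℂ) :
    PowerSeries ℂ :=
  ∑ S : Finset ι, PowerSeries.C (∏ i ∈ S, w i) *
    PowerSeries.map (Int.castRingHom ℂ) (PowerSeries.mk (a S))

theorem fps_mul {ι : Type} [Fintype ι] [DecidableEq ι] (a : Finset ι → ℕ → ℤ)
    (D : Finset ι → ℤ[X]) (w : ι → ℂ) (h : ∀ S, IsQuot (a S) (D S) (D ∅)) :
    fps a w * ((D ∅).map (Int.castRingHom ℂ) : ℂ[X]) = (mvp D w : PowerSeries ℂ) := by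
  have h1 : ∀ p : ℤ[X], ((p.map (Int.castRingHom ℂ) : ℂ[X]) : PowerSeries ℂ) =
      PowerSeries.map (Int.castRingHom ℂ) (p : PowerSeries ℤ) := fun p => by
    ext n
    simp
  have h2 : (mvp D w : PowerSeries ℂ) = ∑ S : Finset ι, PowerSeries.C (∏ i ∈ S, w i) *
      ((D S).map (Int.castRingHom ℂ) : ℂ[X]) := by
    rw [mvp]
    have h3 := map_sum (Polynomial.coeToPowerSeries.ringHom (R := ℂ))
      (fun S : Finset ι => C (∏ i ∈ S, w i) * (D S).map (Int.castRingHom ℂ)) Finset.univ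
    simp only [Polynomial.coeToPowerSeries.ringHom_apply, Polynomial.coe_mul,
      Polynomial.coe_C] at h3
    exact h3
  rw [h2, fps, Finset.sum_mul]
  refine Finset.sum_congr rfl fun S _ => ?_
  rw [mul_assoc, h1, h1, ← map_mul, h S]

/-- (LPF) -/
theorem lpf (hLow : LowS) (hZpo : ZpoS) (hLim : LimS) : LpfS := by
  intro ι _ _ D D' t τ a b hpf hone hone' hq hq' hconv z w hz hw
  have hc : 0 < ∏ i, (1 - ‖w i‖) := Finset.prod_pos fun i _ => by linarith [hw i]
  have key := hLim (fun n => mvp (D n) w) (fun n => (D n ∅).map (Int.castRingHom ℂ)) (mvp D' w)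
    ((D' ∅).map (Int.castRingHom ℂ)) (fun n => fps (a n) w) (fps b w) (∏ i, (1 - ‖w i‖))⁻¹
    (fun n => by rw [coeff_map, (hone n).2.1]; simp)
    (by rw [coeff_map, hone'.2.1]; simp)
    (fun n => (hZpo ι (D n) (t n) (hpf n) (hone n) w hw).le)
    (fun n z hz => by rw [eval_mvp]; exact hpf n z w hz hw)
    (fun n z hz => by
      have h := hLow ι (fun S => pv (D n S) z) (fun w' hw' => hpf n z w' hz hw') w hw
      rw [eval_mvp, inv_mul_eq_div, le_div_iff₀ hc]
      have h1 : ((D n ∅).map (Int.castRingHom ℂ)).eval z = pv (D n ∅) z := by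
        simp only [pv, eval_map, aeval_def, algebraMap_int_eq]
      rw [h1]
      exact h)
    (fun n => fps_mul (a n) (D n) w (hq n))
    (fps_mul b D' w hq')
    (fun j => by
      refine tendsto_const_nhds.congr' ?_
      have h : ∀ᶠ n in atTop, ∀ S : Finset ι, a n S j = b S j :=
        eventually_all.2 fun S => hconv S j
      filter_upwards [h] with n hn
      simp only [fps, map_sum, PowerSeries.coeff_C_mul, PowerSeries.coeff_map,
        PowerSeries.coeff_mk, hn])
    z hz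
  intro h0
  rw [eval_mvp, h0, norm_zero, mul_zero] at key
  exact eval_ne hone' hz (norm_le_zero_iff.1 key)

end Pool.Agent.MP_b5021c_nt.Lpf
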